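import Pool.Agent.Helper14.W5.StD

/-!
# Project W5, module Sur: solving the inhomogeneous relation
-/

set_option autoImplicit false

namespace Pool.Agent.Helper79.W5

open Pool.Agent.Helper14.W5

private theorem decomp_Sur (hLow0 : S5Low0) (hBb : S5Bb) (r s : ℕ) (e : ℤ) (E : Fn5 (5 ^ r) (5 ^ s))
    (he : e < 5 ^ r + 5 ^ s - 2) (hE : E ∈ Wd5 e) :
    ∃ U V : Fn5 (5 ^ r) (5 ^ s), U ∈ Wd5 (e + 1) ∧ V ∈ Wd5 (e + 1) ∧ dX U + dY V = E := by
  obtain ⟨_, _, _, _, hmono, _⟩ := hLow0 r s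
  obtain ⟨h1, h2, h3, _, _, h6⟩ := hBb r s
  set c : ℕ → ℕ → ZMod 5 := fun i j =>
    ((dX ^ i * dY ^ j : Module.End (ZMod 5) (Fn5 (5 ^ r) (5 ^ s))) E) 0 0 with hc
  have hc0 : ∀ i j : ℕ, e < (i : ℤ) + j → c i j = 0 := by
    intro i j hij
    have : ((dX ^ i * dY ^ j : Module.End (ZMod 5) (Fn5 (5 ^ r) (5 ^ s))) E) = 0 := hE i j hij
    rw [hc]
    simp only [this]
    rfl
  have hj : ∀ i j : ℕ, i < 5 ^ r → (i : ℤ) + j ≤ e → ¬ (i + 1 < 5 ^ r) → j + 1 < 5 ^ s := by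
    intro i j hi hij hi1
    have h7 : i + 1 = 5 ^ r := by omega
    have h8 : (i : ℤ) + 1 = 5 ^ r := by exact_mod_cast h7
    have h9 : (j : ℤ) + 1 < 5 ^ s := by linarith
    exact_mod_cast h9
  refine ⟨∑ i ∈ Finset.range (5 ^ r), ∑ j ∈ Finset.range (5 ^ s),
      (if i + 1 < 5 ^ r then c i j • bb5 (i + 1) j else 0),
    ∑ i ∈ Finset.range (5 ^ r), ∑ j ∈ Finset.range (5 ^ s),
      (if i + 1 < 5 ^ r then 0 else c i j • bb5 i (j + 1)), ?_, ?_, ?_⟩
  · refine Submodule.sum_mem _ fun i hi => Submodule.sum_mem _ fun j hj => ?_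
    rw [Finset.mem_range] at hi hj
    split_ifs with h
    · by_cases hij : (i : ℤ) + j ≤ e
      · refine Submodule.smul_mem _ _ (hmono _ _ ?_ (h1 (i + 1) j h hj))
        push_cast
        linarith
      · rw [hc0 i j (not_le.1 hij), zero_smul]
        exact Submodule.zero_mem _
    · exact Submodule.zero_mem _
  · refine Submodule.sum_mem _ fun i hi => Submodule.sum_mem _ fun j _ => ?_
    rw [Finset.mem_range] at hi
    split_ifs with h
    · exact Submodule.zero_mem _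
    · by_cases hij : (i : ℤ) + j ≤ e
      · refine Submodule.smul_mem _ _ (hmono _ _ ?_ (h1 i (j + 1) hi (hj i j hi hij h)))
        push_cast
        linarith
      · rw [hc0 i j (not_le.1 hij), zero_smul]
        exact Submodule.zero_mem _
  · refine Eq.trans ?_ (h6 E).symm
    rw [map_sum, map_sum, ← Finset.sum_add_distrib]
    refine Finset.sum_congr rfl fun i hi => ?_
    rw [map_sum, map_sum, ← Finset.sum_add_distrib]
    refine Finset.sum_congr rfl fun j hj' => ?_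
    rw [Finset.mem_range] at hi hj'
    have hcc : ((dX ^ i * dY ^ j : Module.End (ZMod 5) (Fn5 (5 ^ r) (5 ^ s))) E) 0 0 = c i j := rfl
    rw [hcc]
    by_cases h : i + 1 < 5 ^ r
    · rw [if_pos h, if_pos h, map_smul, map_zero, add_zero, h2 i j h hj']
    · rw [if_neg h, if_neg h, map_smul, map_zero, zero_add]
      by_cases hij : (i : ℤ) + j ≤ e
      · rw [h3 i j hi (hj i j hi hij h)]
      · rw [hc0 i j (not_le.1 hij), zero_smul, zero_smul]

/-- One step of the induction. -/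
private theorem step_Sur (hTrm : S5Trm) (hLow0 : S5Low0) (hNfa : S5Nfa) (hLw1 : S5Lw1) (hBb : S5Bb)
    (r s : ℕ) (e : ℤ) (E : Fn5 (5 ^ r) (5 ^ s)) (he : e < 5 ^ r + 5 ^ s - 2) (hE : E ∈ Wd5 e) :
    ∃ f a b : Fn5 (5 ^ r) (5 ^ s), f ∈ Wd5 (e + 1) ∧ a ∈ Wd5 (e + 1) ∧ b ∈ Wd5 (e + 1) ∧
      E - (f - op5 1 1 0 1 f - (a - op5 2 (-1) 1 (-2) a) - (b - op5 3 (-2) 1 (-3) b)) ∈
        (Wd5 (e - 1) : Submodule (ZMod 5) (Fn5 (5 ^ r) (5 ^ s))) := by
  obtain ⟨_, _, _, _, hmono, _, hdX, hdY, _⟩ := hLow0 r s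
  obtain ⟨_, _, _, _, hA, _⟩ := hNfa r s
  obtain ⟨hLw, hM, hev, hod⟩ := hLw1 r s
  rcases Int.even_or_odd e with hpar | hpar
  · obtain ⟨U, V, hU, hV, hUV⟩ := decomp_Sur hLow0 hBb r s e E he hE
    have hW : -(U + V) ∈ Wd5 (e + 1) := Submodule.neg_mem _ (Submodule.add_mem _ hU hV)
    refine ⟨-(U + V), -V, V, hW, Submodule.neg_mem _ hV, hV, ?_⟩
    -- the first operator
    have h1 : op5 1 1 0 1 (-(U + V)) - (-(U + V)) - dX (-(U + V)) ∈
        (Wd5 (e - 1) : Submodule (ZMod 5) (Fn5 (5 ^ r) (5 ^ s))) :=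
      hmono _ _ (by linarith) (hA _ _ hW)
    -- the second operator
    have h2 : op5 4 (-1) 1 (-1) V - V - dX V + dY V ∈
        (Wd5 (e - 1) : Submodule (ZMod 5) (Fn5 (5 ^ r) (5 ^ s))) :=
      hmono _ _ (by linarith) (hM _ _ hV)
    have h3 : op5 3 (-2) 1 (-3) (op5 4 (-1) 1 (-1) V - V - dX V + dY V) ∈
        (Wd5 (e - 1) : Submodule (ZMod 5) (Fn5 (5 ^ r) (5 ^ s))) := by
      have := hLw 3 (-2) 1 (-3) (by norm_num) (by norm_num) _ _ h2
      rwa [sub_zero] at this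
    have h4 : dY V - dX V ∈ (Wd5 e : Submodule (ZMod 5) (Fn5 (5 ^ r) (5 ^ s))) := by
      have h5 := hdX _ _ hV
      have h6 := hdY _ _ hV
      rw [add_sub_cancel_right] at h5 h6
      exact Submodule.sub_mem _ h6 h5
    have h5 := (hev e _ h4 hpar).2
    have h6 : op5 3 (-2) 1 (-3) (op5 4 (-1) 1 (-1) V) = op5 2 (-1) 1 (-2) V := by
      have h7 := (hTrm (ZMod 5) r s V).1 3 (-2) 1 (-3) 4 (-1) 1 (-1) (by norm_num) (by norm_num)
        (by norm_num) (by norm_num)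
      norm_num at h7
      exact h7
    have h7 : E - (-(U + V) - op5 1 1 0 1 (-(U + V)) - (-V - op5 2 (-1) 1 (-2) (-V)) -
        (V - op5 3 (-2) 1 (-3) V)) =
        (op5 1 1 0 1 (-(U + V)) - (-(U + V)) - dX (-(U + V))) +
        op5 3 (-2) 1 (-3) (op5 4 (-1) 1 (-1) V - V - dX V + dY V) -
        (op5 3 (-2) 1 (-3) (dY V - dX V) - (dY V - dX V)) := by
      have h8 : (dX (-(U + V)) : Fn5 (5 ^ r) (5 ^ s)) = -(dX U + dX V) := by
        rw [map_neg, map_add]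
      rw [h8, map_add (op5 3 (-2) 1 (-3)) (op5 4 (-1) 1 (-1) V - V - dX V) (dY V),
        map_sub (op5 3 (-2) 1 (-3)) (op5 4 (-1) 1 (-1) V - V) (dX V),
        map_sub (op5 3 (-2) 1 (-3)) (op5 4 (-1) 1 (-1) V) V, h6,
        map_sub (op5 3 (-2) 1 (-3)) (dY V) (dX V), map_neg (op5 2 (-1) 1 (-2)) V, ← hUV]
      abel
    rw [h7]
    exact Submodule.sub_mem _ (Submodule.add_mem _ h1 h3) h5
  · have ha : (2 : ZMod 5) • E ∈ (Wd5 e : Submodule (ZMod 5) (Fn5 (5 ^ r) (5 ^ s))) :=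
      Submodule.smul_mem _ _ hE
    refine ⟨0, (2 : ZMod 5) • E, 0, Submodule.zero_mem _, hmono _ _ (by linarith) ha,
      Submodule.zero_mem _, ?_⟩
    have h1 := (hod e _ ha hpar).1
    have h2 : E - (0 - op5 1 1 0 1 0 - ((2 : ZMod 5) • E - op5 2 (-1) 1 (-2) ((2 : ZMod 5) • E)) -
        (0 - op5 3 (-2) 1 (-3) 0)) =
        -(op5 2 (-1) 1 (-2) ((2 : ZMod 5) • E) + (2 : ZMod 5) • E) := by
      rw [map_zero, map_zero]
      have h3 : E + (2 : ZMod 5) • E + (2 : ZMod 5) • E = 0 := by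
        have h4 : E + (2 : ZMod 5) • E + (2 : ZMod 5) • E = ((1 : ZMod 5) + 2 + 2) • E := by
          rw [add_smul, add_smul, one_smul]
        have h5 : (1 : ZMod 5) + 2 + 2 = 0 := by decide
        rw [h4, h5, zero_smul]
      have h4 : E - (0 - 0 - ((2 : ZMod 5) • E - op5 2 (-1) 1 (-2) ((2 : ZMod 5) • E)) - (0 - 0)) =
          (E + (2 : ZMod 5) • E + (2 : ZMod 5) • E) -
          (op5 2 (-1) 1 (-2) ((2 : ZMod 5) • E) + (2 : ZMod 5) • E) := by abel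
      rw [h4, h3, zero_sub]
    rw [h2]
    exact Submodule.neg_mem _ h1

private theorem main_Sur (hTrm : S5Trm) (hLow0 : S5Low0) (hNfa : S5Nfa) (hLw1 : S5Lw1)
    (hBb : S5Bb) (r s : ℕ) :
    ∀ (n : ℕ) (e : ℤ) (E : Fn5 (5 ^ r) (5 ^ s)), e < n → e < 5 ^ r + 5 ^ s - 2 → E ∈ Wd5 e →
    ∃ f a b : Fn5 (5 ^ r) (5 ^ s), f ∈ Wd5 (e + 1) ∧ a ∈ Wd5 (e + 1) ∧ b ∈ Wd5 (e + 1) ∧
      f - op5 1 1 0 1 f - (a - op5 2 (-1) 1 (-2) a) - (b - op5 3 (-2) 1 (-3) b) = E := by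
  have hL := hLow0 r s
  obtain ⟨_, _, _, _, hmono, _, _, _, _, _, _, _, _, hneg⟩ := hL
  intro n
  induction n with
  | zero =>
    intro e E he _ hE
    have h1 : E = 0 := hneg E (hmono e (-1) (by
      have : e < 0 := by exact_mod_cast he
      omega) hE)
    refine ⟨0, 0, 0, Submodule.zero_mem _, Submodule.zero_mem _, Submodule.zero_mem _, ?_⟩
    rw [h1, map_zero, map_zero, map_zero]
    simp
  | succ n ih =>
    intro e E he he2 hE
    obtain ⟨f, a, b, hf, ha, hb, hR⟩ := step_Sur hTrm hLow0 hNfa hLw1 hBb r s e E he2 hE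
    obtain ⟨f', a', b', hf', ha', hb', hR'⟩ := ih (e - 1) _ (by push_cast at he; linarith)
      (by linarith) hR
    have h6 : e - 1 + 1 = e := by ring
    rw [h6] at hf' ha' hb'
    refine ⟨f + f', a + a', b + b', Submodule.add_mem _ hf (hmono _ _ (by linarith) hf'),
      Submodule.add_mem _ ha (hmono _ _ (by linarith) ha'),
      Submodule.add_mem _ hb (hmono _ _ (by linarith) hb'), ?_⟩
    rw [map_add (op5 1 1 0 1) f f', map_add (op5 2 (-1) 1 (-2)) a a',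
      map_add (op5 3 (-2) 1 (-3)) b b']
    have h7 : f + f' - (op5 1 1 0 1 f + op5 1 1 0 1 f') -
        (a + a' - (op5 2 (-1) 1 (-2) a + op5 2 (-1) 1 (-2) a')) -
        (b + b' - (op5 3 (-2) 1 (-3) b + op5 3 (-2) 1 (-3) b')) =
        (f - op5 1 1 0 1 f - (a - op5 2 (-1) 1 (-2) a) - (b - op5 3 (-2) 1 (-3) b)) +
        (f' - op5 1 1 0 1 f' - (a' - op5 2 (-1) 1 (-2) a') - (b' - op5 3 (-2) 1 (-3) b')) := by
      abel
    rw [h7, hR']
    abel

theorem hSur (hm : S5Trm) (hl : S5Low0) (hn : S5Nfa) (h1 : S5Lw1) (hb : S5Bb) : S5Sur := by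
  intro r s e E he hE
  exact main_Sur hm hl hn h1 hb r s (e + 1).toNat e E (by
    have := Int.self_le_toNat (e + 1)
    linarith) he hE

end Pool.Agent.Helper79.W5
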